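import Pool.Agent.Run7.h593.QF.R10a
import Pool.Agent.Run7.h885.ML.TAY
import Pool.Agent.Run7.h796.ML.RIE
import Pool.Agent.Run7.h593.ML.SOL

/-!
# R10: the continuum limit of the quadratic form, for one component
-/

open MeasureTheory Filter Topology Set
open scoped ContDiff FourierTransform

namespace Run7.h593.QF

open Run7.h630.ML Pool.Agent.Run7.h885.ML

noncomputable section

theorem t_LIM : S_LIM := t_ASM Run7.h593.ML.t_SOL t_TAY Run7.h796.ML.t_RIE Run7.h593.ML.t_SUM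
  Run7.h593.ML.t_STA

/-- the operator as a linear map -/
def KtL (e : ℕ) (x0 : ℝ) : (ZMod e × ZMod e → ℂ) →ₗ[ℂ] (ZMod e × ZMod e → ℂ) where
  toFun := Kt x0
  map_add' f g := by
    funext u
    simp only [Kt, Pi.add_apply]
    ring
  map_smul' c f := by
    funext u
    simp only [Kt, Pi.smul_apply, smul_eq_mul, RingHom.id_apply]
    ring

theorem nm_zero {e : ℕ} [NeZero e] {f : ZMod e × ZMod e → ℂ} (h : nm f ≤ 0) : f = 0 := by
  have h1 : nm f = 0 := le_antisymm h (nm_nonneg f)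
  have h2 : (WithLp.toLp 2 f : EuclideanSpace ℂ (ZMod e × ZMod e)) = 0 := norm_eq_zero.1 h1
  funext u
  exact congrFun (congrArg (fun z : EuclideanSpace ℂ (ZMod e × ZMod e) => (z : _ → ℂ)) h2) u

theorem Kt_surj {e : ℕ} [NeZero e] {x0 : ℝ} (hx : 0 < x0) (f : ZMod e × ZMod e → ℂ) :
    ∃ g, Kt x0 g = f := by
  have hinj : Function.Injective (KtL e x0) := by
    rw [← LinearMap.ker_eq_bot, LinearMap.ker_eq_bot']
    intro g hg
    have h1 := nm_inv hx g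
    have h2 : Kt x0 g = 0 := hg
    rw [h2] at h1
    have h3 : nm (0 : ZMod e × ZMod e → ℂ) = 0 := by
      unfold nm
      exact norm_zero
    rw [h3, mul_zero] at h1
    exact nm_zero h1
  exact LinearMap.injective_iff_surjective.1 hinj f

/-- the lattice divergence -/
def hh (l e : ℕ) (a c : ℝ) (F0 F1 F2 F3 : E2 → ℂ) (u : ZMod e × ZMod e) : ℂ :=
  (rs l e F0 (u - (1, 0)) - rs l e F0 u) + (rs l e F1 (u - (0, 1)) - rs l e F1 u) +
    (Complex.exp (-(Complex.I * ((a / l : ℝ) : ℂ))) - 1) * rs l e F2 u +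
    (Complex.exp (-(Complex.I * ((c / l : ℝ) : ℂ))) - 1) * rs l e F3 u

/-- the divergence -/
def dv (a c : ℝ) (F0 F1 F2 F3 : E2 → ℂ) (x : E2) : ℂ :=
  fderiv ℝ F0 x (ev 0) + fderiv ℝ F1 x (ev 1) + Complex.I * a * F2 x + Complex.I * c * F3 x

/-- the mass term -/
def xx (a c : ℝ) (l : ℕ) : ℝ := (2 - 2 * Real.cos (a / l)) + (2 - 2 * Real.cos (c / l))

theorem far_le {l e : ℕ} (hl : 1 ≤ l) (hle : 2 * l ^ 2 + 4 ≤ e) {z : ℤ}
    (hz : (e : ℤ) ≤ 2 * |z| + 2) : (l : ℝ) ≤ |(z : ℝ)| / l := by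
  have hl' : (1 : ℝ) ≤ l := by exact_mod_cast hl
  have hl0 : (0 : ℝ) < l := by linarith
  have hle' : (2 * (l : ℤ) ^ 2 + 4 : ℤ) ≤ (e : ℤ) := by exact_mod_cast hle
  rw [le_div_iff₀ hl0]
  have h1 : (l : ℤ) ^ 2 + 1 ≤ |z| := by linarith
  have h2 : (l : ℝ) ^ 2 + 1 ≤ |(z : ℝ)| := by exact_mod_cast h1
  nlinarith

theorem hh_bound (a c : ℝ) {F0 F1 F2 F3 : E2 → ℂ} (s0 : ContDiff ℝ ∞ F0)
    (s1 : ContDiff ℝ ∞ F1) (s2 : ContDiff ℝ ∞ F2) (s3 : ContDiff ℝ ∞ F3)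
    (c0 : HasCompactSupport F0) (c1 : HasCompactSupport F1) (c2 : HasCompactSupport F2)
    (c3 : HasCompactSupport F3) :
    ∃ E : ℝ, 0 ≤ E ∧ ∀ᶠ l : ℕ in atTop, ∀ (e : ℕ) [NeZero e], 2 * l ^ 2 + 4 ≤ e →
      ∀ u : ZMod e × ZMod e, ‖(l : ℂ) * hh l e a c F0 F1 F2 F3 u +
        dv a c F0 F1 F2 F3 (pt l (cx u))‖ ≤ E * (l : ℝ)⁻¹ * ((1 + ‖pt l (cx u)‖) ^ 2)⁻¹ := by
  obtain ⟨E0, hE0, L0, h0⟩ := dterm s0 c0 0
  obtain ⟨E1, hE1, L1, h1⟩ := dterm s1 c1 1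
  obtain ⟨E2', hE2, h2⟩ := eterm s2.continuous c2 a
  obtain ⟨E3, hE3, h3⟩ := eterm s3.continuous c3 c
  refine ⟨E0 + E1 + E2' + E3, by positivity, ?_⟩
  have hev : ∀ r : ℝ, ∀ᶠ l : ℕ in atTop, r ≤ (l : ℝ) := fun r =>
    tendsto_natCast_atTop_atTop.eventually_ge_atTop r
  filter_upwards [hev L0, hev L1, hev |a|, hev |c|, eventually_ge_atTop 1] with l k0 k1 k2 k3 hl
    e _ hle u
  set X : E2 := pt l (cx u) with hX
  have hself : ∀ z : ℤ, |z| ≤ |z| + 1 := fun z => by linarith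
  have n0 : 1 + ‖X‖ ≤ 3 * (1 + ‖pt l (cx (u - (1, 0)))‖) := by
    refine nb_norm hl ?_ ?_
    · change |u.1.valMinAbs| ≤ |(u.1 - 1).valMinAbs| + 1
      exact vm_nb2 u.1
    · change |u.2.valMinAbs| ≤ |(u.2 - 0).valMinAbs| + 1
      rw [sub_zero]
      exact hself _
  have n1 : 1 + ‖X‖ ≤ 3 * (1 + ‖pt l (cx (u - (0, 1)))‖) := by
    refine nb_norm hl ?_ ?_
    · change |u.1.valMinAbs| ≤ |(u.1 - 0).valMinAbs| + 1
      rw [sub_zero]
      exact hself _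
    · change |u.2.valMinAbs| ≤ |(u.2 - 1).valMinAbs| + 1
      exact vm_nb2 u.2
  have o0 : pt l (cx (u - (1, 0))) = X - (l : ℝ)⁻¹ • ev 0 ∨ (l : ℝ) ≤ 1 + ‖X‖ := by
    by_cases hg : 2 * |u.1.valMinAbs| + 2 < e
    · left
      have : cx (u - (1, 0)) = ((u.1 - 1).valMinAbs, (u.2 - 0).valMinAbs) := rfl
      rw [this, vm_sub hg, sub_zero, pt_sub0]
      rfl
    · right
      rw [not_lt] at hg
      have h4 := (far_le hl hle hg).trans (abs_le_norm0 l (cx u))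
      rw [← hX] at h4
      linarith
  have o1 : pt l (cx (u - (0, 1))) = X - (l : ℝ)⁻¹ • ev 1 ∨ (l : ℝ) ≤ 1 + ‖X‖ := by
    by_cases hg : 2 * |u.2.valMinAbs| + 2 < e
    · left
      have : cx (u - (0, 1)) = ((u.1 - 0).valMinAbs, (u.2 - 1).valMinAbs) := rfl
      rw [this, vm_sub hg, sub_zero, pt_sub1]
      rfl
    · right
      rw [not_lt] at hg
      have h4 := (far_le hl hle hg).trans (abs_le_norm1 l (cx u))
      rw [← hX] at h4
      linarith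
  have b0 := h0 l k0 hl X _ n0 o0
  have b1 := h1 l k1 hl X _ n1 o1
  have b2 := h2 l hl k2 X
  have b3 := h3 l hl k3 X
  have hr : ∀ (G : E2 → ℂ) (v : ZMod e × ZMod e), rs l e G v = G (pt l (cx v)) := fun _ _ => rfl
  have e1 : (l : ℂ) * hh l e a c F0 F1 F2 F3 u + dv a c F0 F1 F2 F3 X =
      (((l : ℂ) * (F0 (pt l (cx (u - (1, 0)))) - F0 X) + fderiv ℝ F0 X (ev 0)) +
      ((l : ℂ) * (F1 (pt l (cx (u - (0, 1)))) - F1 X) + fderiv ℝ F1 X (ev 1))) +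
      ((l : ℂ) * ((Complex.exp (-(Complex.I * ((a / l : ℝ) : ℂ))) - 1) * F2 X) +
        Complex.I * a * F2 X) +
      ((l : ℂ) * ((Complex.exp (-(Complex.I * ((c / l : ℝ) : ℂ))) - 1) * F3 X) +
        Complex.I * c * F3 X) := by
    unfold hh dv
    rw [hr, hr, hr, hr, hr, hr]
    ring
  rw [e1]
  refine (norm_add_le _ _).trans ?_
  refine (add_le_add ((norm_add_le _ _).trans (add_le_add (norm_add_le _ _) le_rfl)) le_rfl).trans ?_
  calc _ ≤ E0 * (l : ℝ)⁻¹ * ((1 + ‖X‖) ^ 2)⁻¹ + E1 * (l : ℝ)⁻¹ * ((1 + ‖X‖) ^ 2)⁻¹ +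
        E2' * (l : ℝ)⁻¹ * ((1 + ‖X‖) ^ 2)⁻¹ + E3 * (l : ℝ)⁻¹ * ((1 + ‖X‖) ^ 2)⁻¹ := by
        gcongr
    _ = _ := by ring

theorem cos_bd (a : ℝ) {l : ℕ} (hl : 1 ≤ l) (ha : |a| ≤ l) :
    |2 - 2 * Real.cos (a / l) - (a / l) ^ 2| ≤ (a / l) ^ 4 := by
  have hl' : (1 : ℝ) ≤ l := by exact_mod_cast hl
  have hl0 : (0 : ℝ) < l := by linarith
  have h1 : |a / l| ≤ 1 := by
    rw [abs_div, Nat.abs_cast]
    exact (div_le_one hl0).2 ha
  have hb := Real.cos_bound h1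
  have h4 : |a / l| ^ 4 = (a / l) ^ 4 := by
    rw [show (4 : ℕ) = 2 * 2 from rfl, pow_mul, sq_abs, ← pow_mul]
  rw [h4] at hb
  obtain ⟨hb1, hb2⟩ := abs_le.1 hb
  have h5 : 0 ≤ (a / l) ^ 4 := by positivity
  exact abs_le.2 ⟨by linarith, by linarith⟩

theorem arith {L Z X0 X1 A B T M : ℝ} (hL : 1 ≤ L) (hA : 0 ≤ A) (hB : 0 ≤ B) (hT : 0 ≤ T)
    (hM : 0 ≤ M) (i0 : X0⁻¹ ≤ M * L ^ 2) (i1 : X1⁻¹ ≤ M * L ^ 2) (p0 : 0 < X0) (p1 : 0 < X1)
    (hd : |X0 - X1| ≤ T / L ^ 4)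
    (hZ : |Z| ≤ X0⁻¹ * (A * (A + B * L) + B * L * (A + |X0 - X1| * (X1⁻¹ * (B * L))))) :
    (L ^ 4)⁻¹ * |Z| ≤ M * (A * (A + B) + B * (A + T * (M * B))) * L⁻¹ := by
  have hL0 : 0 < L := by linarith
  have h1 : |X0 - X1| * (X1⁻¹ * (B * L)) ≤ T * (M * B) := by
    calc |X0 - X1| * (X1⁻¹ * (B * L)) ≤ T / L ^ 4 * ((M * L ^ 2) * (B * L)) := by
          gcongr
      _ = T * (M * B) * L⁻¹ := by field_simp
      _ ≤ T * (M * B) * 1 := by
          have : L⁻¹ ≤ 1 := inv_le_one_of_one_le₀ hL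
          gcongr
      _ = T * (M * B) := mul_one _
  have h2 : A * (A + B * L) + B * L * (A + |X0 - X1| * (X1⁻¹ * (B * L))) ≤
      (A * (A + B) + B * (A + T * (M * B))) * L := by
    have h3 : A * (A + B * L) ≤ A * (A + B) * L := by nlinarith [mul_nonneg hA hA]
    have h4 : B * L * (A + |X0 - X1| * (X1⁻¹ * (B * L))) ≤ B * L * (A + T * (M * B)) := by
      gcongr
    calc _ ≤ A * (A + B) * L + B * L * (A + T * (M * B)) := add_le_add h3 h4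
      _ = _ := by ring
  have h5 : 0 ≤ (A * (A + B) + B * (A + T * (M * B))) * L := by positivity
  calc (L ^ 4)⁻¹ * |Z| ≤ (L ^ 4)⁻¹ * ((M * L ^ 2) * ((A * (A + B) + B * (A + T * (M * B))) * L)) := by
        refine mul_le_mul_of_nonneg_left (hZ.trans ?_) (by positivity)
        calc _ ≤ X0⁻¹ * ((A * (A + B) + B * (A + T * (M * B))) * L) :=
              mul_le_mul_of_nonneg_left h2 (by positivity)
          _ ≤ _ := mul_le_mul_of_nonneg_right i0 h5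
    _ = _ := by
        field_simp

/-- the continuum limit for one component -/
theorem main (a c : ℝ) (hac : 0 < a ^ 2 + c ^ 2) {F0 F1 F2 F3 : E2 → ℂ} (s0 : ContDiff ℝ ∞ F0)
    (s1 : ContDiff ℝ ∞ F1) (s2 : ContDiff ℝ ∞ F2) (s3 : ContDiff ℝ ∞ F3)
    (c0 : HasCompactSupport F0) (c1 : HasCompactSupport F1) (c2 : HasCompactSupport F2)
    (c3 : HasCompactSupport F3) (e : ℕ → ℕ) [∀ l, NeZero (e l)] (he : ∀ l, 2 * l ^ 2 + 4 ≤ e l)
    (w : (l : ℕ) → ZMod (e l) × ZMod (e l) → ℂ)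
    (hw : ∀ᶠ l : ℕ in atTop, Kt (xx a c l) (w l) = hh l (e l) a c F0 F1 F2 F3) :
    Tendsto (fun l : ℕ => ((l : ℝ) ^ 2)⁻¹ *
      ∑ u, (hh l (e l) a c F0 F1 F2 F3 u * starRingEnd ℂ (w l u)).re) atTop
      (𝓝 (∫ ξ, ‖𝓕 (dv a c F0 F1 F2 F3) ξ‖ ^ 2 /
        (4 * Real.pi ^ 2 * ‖ξ‖ ^ 2 + a ^ 2 + c ^ 2))) := by
  set m : ℝ := Real.sqrt (a ^ 2 + c ^ 2) with hm
  have hm0 : 0 < m := Real.sqrt_pos.2 hac
  have hm2 : m ^ 2 = a ^ 2 + c ^ 2 := Real.sq_sqrt hac.le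
  set D : E2 → ℂ := dv a c F0 F1 F2 F3 with hD
  -- the smoothness of the divergence
  have d0 : ContDiff ℝ ∞ fun x => fderiv ℝ F0 x (ev 0) :=
    (s0.fderiv_right (by simp)).clm_apply contDiff_const
  have d1 : ContDiff ℝ ∞ fun x => fderiv ℝ F1 x (ev 1) :=
    (s1.fderiv_right (by simp)).clm_apply contDiff_const
  have hDs : ContDiff ℝ ∞ D :=
    ((d0.add d1).add (contDiff_const.mul s2)).add (contDiff_const.mul s3)
  have q0 : HasCompactSupport fun x => fderiv ℝ F0 x (ev 0) := by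
    refine (c0.fderiv (𝕜 := ℝ)).mono fun x hx => ?_
    intro h
    apply hx
    simp only [] 
    rw [h]
    rfl
  have q1 : HasCompactSupport fun x => fderiv ℝ F1 x (ev 1) := by
    refine (c1.fderiv (𝕜 := ℝ)).mono fun x hx => ?_
    intro h
    apply hx
    simp only []
    rw [h]
    rfl
  have hDc : HasCompactSupport D :=
    ((q0.add q1).add (HasCompactSupport.mul_left c2)).add (HasCompactSupport.mul_left c3)
  obtain ⟨E, hE0, hE⟩ := hh_bound a c s0 s1 s2 s3 c0 c1 c2 c3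
  obtain ⟨D1, hD10, hD1⟩ := decay hDs.continuous hDc
  obtain ⟨S, hS0, hS⟩ := Run7.h593.ML.t_SUM
  have hsum : ∀ l : ℕ, 1 ≤ l → ∑ u : ZMod (e l) × ZMod (e l), ((1 + ‖pt l (cx u)‖) ^ 4)⁻¹ ≤
      S * (l : ℝ) ^ 2 := by
    intro l hl
    obtain ⟨h1, h2⟩ := hS l hl
    exact (sum_cx_le (fun x => by positivity) h1).trans h2
  -- the solution for the smooth function
  have hx1 : ∀ᶠ l : ℕ in atTop, m ≤ (l : ℝ) := tendsto_natCast_atTop_atTop.eventually_ge_atTop m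
  have hg : ∀ l : ℕ, ∃ g : ZMod (e l) × ZMod (e l) → ℂ, (1 ≤ l ∧ m ≤ (l : ℝ)) →
      Kt (2 - 2 * Real.cos (m / l)) g = rs l (e l) D := by
    intro l
    by_cases h : 1 ≤ l ∧ m ≤ (l : ℝ)
    · obtain ⟨h1, h2⟩ := h
      have h3 := (mass_bounds hm0 h1 h2).2.1
      have hl0 : (0 : ℝ) < l := by exact_mod_cast h1
      obtain ⟨g, hg⟩ := Kt_surj (lt_of_lt_of_le (by positivity) h3) (rs l (e l) D)
      exact ⟨g, fun _ => hg⟩
    · exact ⟨0, fun h' => absurd h' h⟩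
  choose g hg using hg
  have hlim := t_LIM m hm0 D hDs hDc e he g (by
    filter_upwards [hx1, eventually_ge_atTop 1] with l h1 h2
    exact hg l ⟨h2, h1⟩)
  have hden : (∫ ξ, ‖𝓕 D ξ‖ ^ 2 / (4 * Real.pi ^ 2 * ‖ξ‖ ^ 2 + m ^ 2)) =
      ∫ ξ, ‖𝓕 D ξ‖ ^ 2 / (4 * Real.pi ^ 2 * ‖ξ‖ ^ 2 + a ^ 2 + c ^ 2) := by
    congr 1
    funext ξ
    rw [hm2]
    congr 1
    ring
  rw [← hden]
  -- the comparison
  set T : ℝ := a ^ 4 + c ^ 4 + m ^ 4 with hT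
  have hT0 : 0 < T := by positivity
  set A : ℝ := E * Real.sqrt S with hA
  set B : ℝ := D1 * Real.sqrt S with hB
  have hA0 : 0 ≤ A := by positivity
  have hB0 : 0 ≤ B := by positivity
  set Q : ℝ := 2 / m ^ 2 * (A * (A + B) + B * (A + T * (2 / m ^ 2 * B))) with hQ
  have key : ∀ᶠ l : ℕ in atTop, |((l : ℝ) ^ 2)⁻¹ *
      ∑ u, (hh l (e l) a c F0 F1 F2 F3 u * starRingEnd ℂ (w l u)).re -
      ((l : ℝ) ^ 4)⁻¹ * (∑ u : ZMod (e l) × ZMod (e l), starRingEnd ℂ (rs l (e l) D u) *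
        g l u).re| ≤ Q * (l : ℝ)⁻¹ := by
    have hev : ∀ r : ℝ, ∀ᶠ l : ℕ in atTop, r ≤ (l : ℝ) := fun r =>
      tendsto_natCast_atTop_atTop.eventually_ge_atTop r
    filter_upwards [hw, hE, hx1, eventually_ge_atTop 1, hev |a|, hev |c|, hev (2 * T / m ^ 2)]
      with l hwl hEl hml hl1 hal hcl hTl
    have hl' : (1 : ℝ) ≤ l := by exact_mod_cast hl1
    have hl0 : (0 : ℝ) < l := by linarith
    have hlc : (l : ℂ) ≠ 0 := by exact_mod_cast hl0.ne'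
    -- the mass terms
    obtain ⟨y1, y2, -⟩ := mass_bounds hm0 hl1 hml
    have y3 := cos_bd a hl1 hal
    have y4 := cos_bd c hl1 hcl
    obtain ⟨y3a, y3b⟩ := abs_le.1 y3
    obtain ⟨y4a, y4b⟩ := abs_le.1 y4
    obtain ⟨y1a, y1b⟩ := abs_le.1 y1
    have ym : (m / l) ^ 2 = (a / l) ^ 2 + (c / l) ^ 2 := by
      rw [div_pow, hm2, div_pow, div_pow, add_div]
    have yT : (a / l) ^ 4 + (c / l) ^ 4 + (m / l) ^ 4 = T / (l : ℝ) ^ 4 := by
      rw [hT, div_pow, div_pow, div_pow]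
      ring
    have hdiff : |xx a c l - (2 - 2 * Real.cos (m / l))| ≤ T / (l : ℝ) ^ 4 := by
      rw [← yT]
      unfold xx
      exact abs_le.2 ⟨by linarith, by linarith⟩
    have p1 : 0 < 2 - 2 * Real.cos (m / l) := lt_of_lt_of_le (by positivity) y2
    have i1 : (2 - 2 * Real.cos (m / l))⁻¹ ≤ 2 / m ^ 2 * (l : ℝ) ^ 2 := by
      calc (2 - 2 * Real.cos (m / l))⁻¹ ≤ ((m / l) ^ 2 / 2)⁻¹ := inv_anti₀ (by positivity) y2
        _ = _ := by field_simp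
    have lowx : (m / l) ^ 2 / 2 ≤ xx a c l := by
      have t1 : T / (l : ℝ) ^ 4 ≤ (m / l) ^ 2 / 2 := by
        rw [div_pow, div_div, div_le_div_iff₀ (by positivity) (by positivity)]
        rw [div_le_iff₀ (by positivity)] at hTl
        have : (l : ℝ) ≤ (l : ℝ) ^ 2 := by nlinarith
        calc T * ((l : ℝ) ^ 2 * 2) = 2 * T * (l : ℝ) ^ 2 := by ring
          _ ≤ (l : ℝ) * m ^ 2 * (l : ℝ) ^ 2 := by gcongr
          _ ≤ (l : ℝ) ^ 2 * m ^ 2 * (l : ℝ) ^ 2 := by gcongr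
          _ = m ^ 2 * (l : ℝ) ^ 4 := by ring
      have t2 : (m / l) ^ 2 - T / (l : ℝ) ^ 4 ≤ xx a c l := by
        rw [← yT, ym]
        unfold xx
        have : 0 ≤ (m / l) ^ 4 := by positivity
        linarith
      linarith
    have p0 : 0 < xx a c l := lt_of_lt_of_le (by positivity) lowx
    have i0 : (xx a c l)⁻¹ ≤ 2 / m ^ 2 * (l : ℝ) ^ 2 := by
      calc (xx a c l)⁻¹ ≤ ((m / l) ^ 2 / 2)⁻¹ := inv_anti₀ (by positivity) lowx
        _ = _ := by field_simp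
    -- the functions
    have hft : Kt (xx a c l) (fun u => -(l : ℂ) * w l u) =
        fun u => -(l : ℂ) * hh l (e l) a c F0 F1 F2 F3 u := by
      rw [Kt_mul, hwl]
    have nA : nm (fun u => -(l : ℂ) * hh l (e l) a c F0 F1 F2 F3 u - rs l (e l) D u) ≤ A := by
      have h1 : ∀ u, ‖-(l : ℂ) * hh l (e l) a c F0 F1 F2 F3 u - rs l (e l) D u‖ ≤
          (E * (l : ℝ)⁻¹) * ((1 + ‖pt l (cx u)‖) ^ 2)⁻¹ := by
        intro u
        have h2 := hEl (e l) (he l) u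
        have h3 : -(l : ℂ) * hh l (e l) a c F0 F1 F2 F3 u - rs l (e l) D u =
            -((l : ℂ) * hh l (e l) a c F0 F1 F2 F3 u + D (pt l (cx u))) := by
          have : rs l (e l) D u = D (pt l (cx u)) := rfl
          rw [this]
          ring
        rw [h3, norm_neg]
        exact h2
      refine (nm_le (by positivity) h1 (hsum l hl1)).trans (le_of_eq ?_)
      rw [Real.sqrt_mul hS0.le, Real.sqrt_sq hl0.le, hA]
      field_simp
    have nB : nm (rs l (e l) D) ≤ B * l := by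
      have h1 : ∀ u, ‖rs l (e l) D u‖ ≤ D1 * ((1 + ‖pt l (cx u)‖) ^ 2)⁻¹ := fun u => hD1 _
      refine (nm_le hD10 h1 (hsum l hl1)).trans (le_of_eq ?_)
      rw [Real.sqrt_mul hS0.le, Real.sqrt_sq hl0.le, hB]
      ring
    have hcomp := comp p0 p1 hft (hg l ⟨hl1, hml⟩) nA nB
    have e1 : (∑ u, starRingEnd ℂ (-(l : ℂ) * hh l (e l) a c F0 F1 F2 F3 u) *
        (-(l : ℂ) * w l u)).re = (l : ℝ) ^ 2 *
          ∑ u, (hh l (e l) a c F0 F1 F2 F3 u * starRingEnd ℂ (w l u)).re := by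
      rw [Complex.re_sum, Finset.mul_sum]
      refine Finset.sum_congr rfl fun u _ => ?_
      have h2 : starRingEnd ℂ (-(l : ℂ) * hh l (e l) a c F0 F1 F2 F3 u) * (-(l : ℂ) * w l u) =
          (((l : ℝ) ^ 2 : ℝ) : ℂ) *
            starRingEnd ℂ (hh l (e l) a c F0 F1 F2 F3 u * starRingEnd ℂ (w l u)) := by
        rw [map_mul, map_mul, map_neg, Complex.conj_natCast, Complex.conj_conj]
        push_cast
        ring
      rw [h2, Complex.re_ofReal_mul, Complex.conj_re]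
    rw [e1] at hcomp
    have e2 : ((l : ℝ) ^ 2)⁻¹ *
        ∑ u, (hh l (e l) a c F0 F1 F2 F3 u * starRingEnd ℂ (w l u)).re -
        ((l : ℝ) ^ 4)⁻¹ * (∑ u : ZMod (e l) × ZMod (e l), starRingEnd ℂ (rs l (e l) D u) *
          g l u).re = ((l : ℝ) ^ 4)⁻¹ * ((l : ℝ) ^ 2 *
          ∑ u, (hh l (e l) a c F0 F1 F2 F3 u * starRingEnd ℂ (w l u)).re -
          (∑ u : ZMod (e l) × ZMod (e l), starRingEnd ℂ (rs l (e l) D u) * g l u).re) := by
      field_simp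
    rw [e2, abs_mul, abs_of_pos (by positivity : (0 : ℝ) < ((l : ℝ) ^ 4)⁻¹)]
    exact arith hl' hA0 hB0 hT0.le (by positivity) i0 i1 p0 p1 hdiff hcomp
  have hz : Tendsto (fun l : ℕ => ((l : ℝ) ^ 2)⁻¹ *
      ∑ u, (hh l (e l) a c F0 F1 F2 F3 u * starRingEnd ℂ (w l u)).re -
      ((l : ℝ) ^ 4)⁻¹ * (∑ u : ZMod (e l) × ZMod (e l), starRingEnd ℂ (rs l (e l) D u) *
        g l u).re) atTop (𝓝 0) := by
    refine squeeze_zero_norm' (a := fun l : ℕ => Q * (l : ℝ)⁻¹) ?_ ?_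
    · filter_upwards [key] with l hl
      rw [Real.norm_eq_abs]
      exact hl
    · have := (tendsto_inv_atTop_nhds_zero_nat (𝕜 := ℝ)).const_mul Q
      rwa [mul_zero] at this
  have := hz.add hlim
  rw [zero_add] at this
  refine this.congr fun l => ?_
  ring

end

end Run7.h593.QF
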