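import Pool.Agent.Run7.h630.QF.Iface
import Pool.Agent.Run7.h593.QF.R10b

/-!
# R10: the continuum limit of the quadratic form
-/

open MeasureTheory Filter Topology
open scoped ContDiff FourierTransform ComplexConjugate

namespace Run7.h593.QF

open Run7.h630.ML Run7.h630.QF

theorem t_R10 : S_R10 := by
  intro N k _ j hj F hF _ e _ he w hw
  have h1 : ∀ b : Fin 4, Tendsto (fun l : ℕ => ((l : ℝ) ^ 2)⁻¹ * ∑ u,
      (dh k l (fun _ a b => rs l (e l) (F a b)) j b u * conj (w l b u)).re) atTop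
      (𝓝 (∫ ξ, ‖𝓕 (dvg N k j F b) ξ‖ ^ 2 /
        (4 * Real.pi ^ 2 * ‖ξ‖ ^ 2 + mom N k j 2 ^ 2 + mom N k j 3 ^ 2))) := by
    intro b
    refine main (mom N k j 2) (mom N k j 3) hj (hF 0 b).1 (hF 1 b).1 (hF 2 b).1 (hF 3 b).1
      (hF 0 b).2 (hF 1 b).2 (hF 2 b).2 (hF 3 b).2 e he (fun l => w l b) ?_
    filter_upwards [hw] with l hl
    exact hl b
  have h2 := tendsto_finset_sum Finset.univ fun b (_ : b ∈ Finset.univ) => h1 b
  unfold quad
  refine h2.congr fun l => ?_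
  rw [Finset.mul_sum]

end Run7.h593.QF
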