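import Pool.Agent.Run7.h885.ML.ASM
import Pool.Agent.Run7.h593.ML.STA
import Pool.Agent.Run7.h593.ML.SUM

/-!
# R10: the continuum limit of the quadratic form, analytic part
-/

open MeasureTheory Filter Topology Set
open scoped ContDiff FourierTransform

namespace Run7.h593.QF

open Run7.h630.ML Pool.Agent.Run7.h885.ML

noncomputable section

/-! ### the norm on the torus -/

/-- the norm -/
def nm {e : ℕ} [NeZero e] (f : ZMod e × ZMod e → ℂ) : ℝ :=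
  ‖(WithLp.toLp 2 f : EuclideanSpace ℂ (ZMod e × ZMod e))‖

theorem nm_eq {e : ℕ} [NeZero e] (f : ZMod e × ZMod e → ℂ) :
    nm f = Real.sqrt (∑ u, ‖f u‖ ^ 2) := by
  unfold nm
  rw [EuclideanSpace.norm_eq]

theorem nm_nonneg {e : ℕ} [NeZero e] (f : ZMod e × ZMod e → ℂ) : 0 ≤ nm f := norm_nonneg _

theorem nm_sq {e : ℕ} [NeZero e] (f : ZMod e × ZMod e → ℂ) : nm f ^ 2 = ∑ u, ‖f u‖ ^ 2 := by
  rw [nm_eq, Real.sq_sqrt (Finset.sum_nonneg fun u _ => by positivity)]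

theorem nm_add {e : ℕ} [NeZero e] (f g : ZMod e × ZMod e → ℂ) : nm (f + g) ≤ nm f + nm g := by
  unfold nm
  exact norm_add_le (WithLp.toLp 2 f : EuclideanSpace ℂ (ZMod e × ZMod e)) (WithLp.toLp 2 g)

theorem nm_smul {e : ℕ} [NeZero e] (c : ℂ) (f : ZMod e × ZMod e → ℂ) :
    nm (c • f) = ‖c‖ * nm f := by
  unfold nm
  exact norm_smul c (WithLp.toLp 2 f : EuclideanSpace ℂ (ZMod e × ZMod e))

theorem nm_le {e : ℕ} [NeZero e] {f : ZMod e × ZMod e → ℂ} {p : ZMod e × ZMod e → ℝ} {A S : ℝ}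
    (hA : 0 ≤ A) (h : ∀ u, ‖f u‖ ≤ A * ((p u) ^ 2)⁻¹)
    (hS : ∑ u, ((p u) ^ 4)⁻¹ ≤ S) : nm f ≤ A * Real.sqrt S := by
  rw [nm_eq]
  have h1 : ∑ u, ‖f u‖ ^ 2 ≤ A ^ 2 * S := by
    calc ∑ u, ‖f u‖ ^ 2 ≤ ∑ u, A ^ 2 * ((p u) ^ 4)⁻¹ := by
          refine Finset.sum_le_sum fun u _ => ?_
          calc ‖f u‖ ^ 2 ≤ (A * ((p u) ^ 2)⁻¹) ^ 2 := by
                have := h u
                gcongr
            _ = A ^ 2 * ((p u) ^ 4)⁻¹ := by
                rw [mul_pow, ← inv_pow, ← inv_pow]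
                ring
      _ = A ^ 2 * ∑ u, ((p u) ^ 4)⁻¹ := by rw [Finset.mul_sum]
      _ ≤ A ^ 2 * S := by gcongr
  calc Real.sqrt (∑ u, ‖f u‖ ^ 2) ≤ Real.sqrt (A ^ 2 * S) := Real.sqrt_le_sqrt h1
    _ = A * Real.sqrt S := by rw [Real.sqrt_mul (by positivity), Real.sqrt_sq hA]

theorem sta {e : ℕ} [NeZero e] {x0 : ℝ} (hx : 0 < x0) (f w : ZMod e × ZMod e → ℂ) :
    ‖∑ u, starRingEnd ℂ (f u) * w u‖ ≤ x0⁻¹ * nm f * nm (Kt x0 w) := by
  rw [nm_eq, nm_eq]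
  exact Run7.h593.ML.t_STA e x0 hx f w

theorem nm_inv {e : ℕ} [NeZero e] {x0 : ℝ} (hx : 0 < x0) (w : ZMod e × ZMod e → ℂ) :
    nm w ≤ x0⁻¹ * nm (Kt x0 w) := by
  have h1 := sta hx w w
  have h2 : ‖∑ u, starRingEnd ℂ (w u) * w u‖ = nm w ^ 2 := by
    have : ∑ u, starRingEnd ℂ (w u) * w u = ((∑ u, ‖w u‖ ^ 2 : ℝ) : ℂ) := by
      rw [Complex.ofReal_sum]
      refine Finset.sum_congr rfl fun u _ => ?_
      rw [← Complex.normSq_eq_conj_mul_self, Complex.normSq_eq_norm_sq]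
    rw [this, Complex.norm_real, Real.norm_eq_abs,
      abs_of_nonneg (Finset.sum_nonneg fun u _ => by positivity), nm_sq]
  rw [h2] at h1
  rcases (nm_nonneg w).eq_or_lt with h0 | h0
  · rw [← h0]
    have := nm_nonneg (Kt x0 w)
    positivity
  · by_contra hcon
    have h3 : x0⁻¹ * nm (Kt x0 w) < nm w := lt_of_not_ge hcon
    have h4 : nm w * (x0⁻¹ * nm (Kt x0 w)) < nm w * nm w := mul_lt_mul_of_pos_left h3 h0
    nlinarith

theorem Kt_sub {e : ℕ} (x0 : ℝ) (w g : ZMod e × ZMod e → ℂ) :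
    Kt x0 (fun u => w u - g u) = fun u => Kt x0 w u - Kt x0 g u := by
  funext u
  unfold Kt
  ring

theorem Kt_mul {e : ℕ} (x0 : ℝ) (c : ℂ) (w : ZMod e × ZMod e → ℂ) :
    Kt x0 (fun u => c * w u) = fun u => c * Kt x0 w u := by
  funext u
  unfold Kt
  ring

theorem Kt_change {e : ℕ} (x0 x1 : ℝ) (g : ZMod e × ZMod e → ℂ) (u : ZMod e × ZMod e) :
    Kt x0 g u = Kt x1 g u + ((x0 - x1 : ℝ) : ℂ) * g u := by
  unfold Kt
  push_cast
  ring

/-- comparison of two solutions -/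
theorem comp {e : ℕ} [NeZero e] {x0 x1 : ℝ} (h0 : 0 < x0) (h1 : 0 < x1)
    {f ft w g : ZMod e × ZMod e → ℂ} (hw : Kt x0 w = ft) (hg : Kt x1 g = f) {A B : ℝ}
    (hA : nm (fun u => ft u - f u) ≤ A) (hB : nm f ≤ B) :
    |(∑ u, starRingEnd ℂ (ft u) * w u).re - (∑ u, starRingEnd ℂ (f u) * g u).re| ≤
      x0⁻¹ * (A * (A + B) + B * (A + |x0 - x1| * (x1⁻¹ * B))) := by
  have hA0 : 0 ≤ A := (nm_nonneg _).trans hA
  have hB0 : 0 ≤ B := (nm_nonneg _).trans hB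
  have hft : nm ft ≤ A + B := by
    have : ft = (fun u => ft u - f u) + f := by
      funext u
      simp
    rw [this]
    exact (nm_add _ _).trans (add_le_add hA hB)
  have e1 : (∑ u, starRingEnd ℂ (ft u) * w u) - (∑ u, starRingEnd ℂ (f u) * g u) =
      ∑ u, starRingEnd ℂ (ft u - f u) * w u + ∑ u, starRingEnd ℂ (f u) * (w u - g u) := by
    rw [← Finset.sum_sub_distrib, ← Finset.sum_add_distrib]
    refine Finset.sum_congr rfl fun u _ => ?_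
    rw [map_sub]
    ring
  have e2 : Kt x0 (fun u => w u - g u) =
      (fun u => ft u - f u) + (((-(x0 - x1) : ℝ) : ℂ)) • g := by
    rw [Kt_sub]
    funext u
    rw [hw, Kt_change x0 x1 g u, hg]
    simp only [Pi.add_apply, Pi.smul_apply, smul_eq_mul]
    push_cast
    ring
  have n1 := sta h0 (fun u => ft u - f u) w
  rw [hw] at n1
  have n2 := sta h0 f (fun u => w u - g u)
  rw [e2] at n2
  have n3 : nm ((fun u => ft u - f u) + (((-(x0 - x1) : ℝ) : ℂ)) • g) ≤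
      A + |x0 - x1| * (x1⁻¹ * B) := by
    refine (nm_add _ _).trans (add_le_add hA ?_)
    rw [nm_smul, Complex.norm_real, Real.norm_eq_abs, abs_neg]
    have := nm_inv h1 g
    rw [hg] at this
    have h2 : nm g ≤ x1⁻¹ * B := this.trans (by gcongr)
    gcongr
  rw [← Complex.sub_re, e1]
  refine (Complex.abs_re_le_norm _).trans ((norm_add_le _ _).trans ?_)
  have m1 : x0⁻¹ * nm (fun u => ft u - f u) * nm ft ≤ x0⁻¹ * A * (A + B) := by
    have := nm_nonneg ft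
    gcongr
  have m2 : x0⁻¹ * nm f * nm ((fun u => ft u - f u) + (((-(x0 - x1) : ℝ) : ℂ)) • g) ≤
      x0⁻¹ * B * (A + |x0 - x1| * (x1⁻¹ * B)) := by
    have := nm_nonneg ((fun u => ft u - f u) + (((-(x0 - x1) : ℝ) : ℂ)) • g)
    gcongr
  calc _ ≤ x0⁻¹ * A * (A + B) + x0⁻¹ * B * (A + |x0 - x1| * (x1⁻¹ * B)) :=
        add_le_add (n1.trans m1) (n2.trans m2)
    _ = _ := by ring

/-! ### differences -/

theorem mvt {F : E2 → ℂ} (hs : ContDiff ℝ ∞ F) (hc : HasCompactSupport F) :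
    ∃ K : ℝ, 0 ≤ K ∧ ∀ x v : E2, ‖F (x + v) - F x - fderiv ℝ F x v‖ ≤ K * ‖v‖ ^ 2 := by
  have h1 : ContDiff ℝ ∞ (fderiv ℝ F) := hs.fderiv_right (by simp)
  have h2 : HasCompactSupport (fderiv ℝ F) := hc.fderiv (𝕜 := ℝ)
  obtain ⟨K, hK⟩ := ContDiff.lipschitzWith_of_hasCompactSupport h2 h1 (by simp)
  refine ⟨K, K.2, fun x v => ?_⟩
  have h := Convex.norm_image_sub_le_of_norm_hasFDerivWithin_le' (f := F)
    (s := Metric.closedBall x ‖v‖) (C := K * ‖v‖) (f' := fun y => fderiv ℝ F y)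
    (φ := fderiv ℝ F x) (x := x) (y := x + v)
    (fun y _ => (hs.differentiable (by simp) y).hasFDerivAt.hasFDerivWithinAt)
    (fun y hy => by
      have h3 := hK.dist_le_mul y x
      rw [dist_eq_norm, dist_eq_norm] at h3
      refine h3.trans ?_
      have h4 : ‖y - x‖ ≤ ‖v‖ := by
        have := Metric.mem_closedBall.1 hy
        rwa [dist_eq_norm] at this
      gcongr) (convex_closedBall _ _) (Metric.mem_closedBall_self (norm_nonneg _)) (by simp)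
  have h5 : x + v - x = v := by abel
  rw [h5] at h
  refine h.trans (le_of_eq ?_)
  ring

theorem dterm {F : E2 → ℂ} (hs : ContDiff ℝ ∞ F) (hc : HasCompactSupport F) (i : Fin 2) :
    ∃ E : ℝ, 0 ≤ E ∧ ∃ L0 : ℝ, ∀ l : ℕ, L0 ≤ l → 1 ≤ l → ∀ X Y : E2,
      1 + ‖X‖ ≤ 3 * (1 + ‖Y‖) → (Y = X - (l : ℝ)⁻¹ • ev i ∨ (l : ℝ) ≤ 1 + ‖X‖) →
      ‖(l : ℂ) * (F Y - F X) + fderiv ℝ F X (ev i)‖ ≤
        E * (l : ℝ)⁻¹ * ((1 + ‖X‖) ^ 2)⁻¹ := by
  obtain ⟨K, hK0, hK⟩ := mvt hs hc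
  obtain ⟨R1, hR10, hR1⟩ := hc.exists_pos_le_norm
  obtain ⟨R2, hR20, hR2⟩ := (hc.fderiv (𝕜 := ℝ)).exists_pos_le_norm
  set R : ℝ := max R1 R2 with hR
  have hF : ∀ x, R ≤ ‖x‖ → F x = 0 := fun x hx => hR1 x ((le_max_left _ _).trans hx)
  have hD : ∀ x, R ≤ ‖x‖ → fderiv ℝ F x = 0 := fun x hx => hR2 x ((le_max_right _ _).trans hx)
  have hR0 : 0 < R := lt_of_lt_of_le hR10 (le_max_left _ _)
  refine ⟨K * (R + 2) ^ 2, by positivity, 3 * R + 3, ?_⟩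
  intro l hl0 hl1 X Y hXY hor
  have hl1' : (1 : ℝ) ≤ l := by exact_mod_cast hl1
  have hlp : (0 : ℝ) < l := by linarith
  have hrhs : 0 ≤ K * (R + 2) ^ 2 * (l : ℝ)⁻¹ * ((1 + ‖X‖) ^ 2)⁻¹ := by positivity
  have hev : ‖(l : ℝ)⁻¹ • ev i‖ = (l : ℝ)⁻¹ := by
    rw [norm_smul, Real.norm_eq_abs, abs_of_pos (by positivity)]
    unfold ev
    rw [PiLp.norm_single]
    simp
  rcases hor with hY | hfar
  · by_cases hX : R + 1 ≤ ‖X‖
    · have h1 : R ≤ ‖Y‖ := by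
        rw [hY]
        have h2 := norm_sub_norm_le X ((l : ℝ)⁻¹ • ev i)
        rw [hev] at h2
        have h3 : (l : ℝ)⁻¹ ≤ 1 := inv_le_one_of_one_le₀ hl1'
        linarith
      rw [hF Y h1, hF X (by linarith), hD X (by linarith)]
      simpa using hrhs
    · rw [not_le] at hX
      have h1 := hK X (-((l : ℝ)⁻¹ • ev i))
      rw [← sub_eq_add_neg, ← hY, norm_neg, hev, map_neg, map_smul] at h1
      have hlc : (l : ℂ) ≠ 0 := by exact_mod_cast hlp.ne'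
      have e1 : (l : ℂ) * (F Y - F X) + fderiv ℝ F X (ev i) =
          (l : ℂ) * (F Y - F X - -((l : ℝ)⁻¹ • fderiv ℝ F X (ev i))) := by
        rw [Complex.real_smul]
        push_cast
        field_simp
        ring
      rw [e1, norm_mul, Complex.norm_natCast]
      have h2 : ((R + 2) ^ 2)⁻¹ ≤ ((1 + ‖X‖) ^ 2)⁻¹ := by
        apply inv_anti₀ (by positivity)
        have := norm_nonneg X
        exact pow_le_pow_left₀ (by positivity) (by linarith) 2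
      calc (l : ℝ) * ‖F Y - F X - -((l : ℝ)⁻¹ • fderiv ℝ F X (ev i))‖
          ≤ l * (K * (l : ℝ)⁻¹ ^ 2) := by gcongr
        _ = K * (l : ℝ)⁻¹ := by field_simp
        _ = K * (R + 2) ^ 2 * (l : ℝ)⁻¹ * ((R + 2) ^ 2)⁻¹ := by
            have : R + 2 ≠ 0 := by positivity
            field_simp
        _ ≤ K * (R + 2) ^ 2 * (l : ℝ)⁻¹ * ((1 + ‖X‖) ^ 2)⁻¹ := by gcongr
  · have h1 : R ≤ ‖X‖ := by linarith
    have h2 : R ≤ ‖Y‖ := by linarith
    rw [hF Y h2, hF X h1, hD X h1]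
    simpa using hrhs

theorem decay {F : E2 → ℂ} (hs : Continuous F) (hc : HasCompactSupport F) :
    ∃ D : ℝ, 0 ≤ D ∧ ∀ y, ‖F y‖ ≤ D * ((1 + ‖y‖) ^ 2)⁻¹ := by
  have h1 : Continuous fun y : E2 => (1 + ‖y‖) ^ 2 * ‖F y‖ :=
    ((continuous_const.add continuous_norm).pow 2).mul hs.norm
  have h2 : HasCompactSupport fun y : E2 => (1 + ‖y‖) ^ 2 * ‖F y‖ := hc.norm.mul_left
  obtain ⟨C, hC⟩ := h1.bounded_above_of_compact_support h2
  have h3 : ∀ y, (1 + ‖y‖) ^ 2 * ‖F y‖ ≤ C := fun y => (le_abs_self _).trans (hC y)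
  refine ⟨C, le_trans (by positivity) (h3 0), fun y => ?_⟩
  rw [← div_eq_mul_inv, le_div_iff₀ (by positivity), mul_comm]
  exact h3 y

theorem eterm {F : E2 → ℂ} (hs : Continuous F) (hc : HasCompactSupport F) (a : ℝ) :
    ∃ E : ℝ, 0 ≤ E ∧ ∀ l : ℕ, 1 ≤ l → |a| ≤ l → ∀ X : E2,
      ‖(l : ℂ) * ((Complex.exp (-(Complex.I * ((a / l : ℝ) : ℂ))) - 1) * F X) +
        Complex.I * a * F X‖ ≤ E * (l : ℝ)⁻¹ * ((1 + ‖X‖) ^ 2)⁻¹ := by
  obtain ⟨D, hD0, hD⟩ := decay hs hc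
  refine ⟨a ^ 2 * D, by positivity, ?_⟩
  intro l hl1 hla X
  have hl1' : (1 : ℝ) ≤ l := by exact_mod_cast hl1
  have hlp : (0 : ℝ) < l := by linarith
  have hlc : (l : ℂ) ≠ 0 := by exact_mod_cast hlp.ne'
  set z : ℂ := -(Complex.I * ((a / l : ℝ) : ℂ)) with hz
  have hzn : ‖z‖ = |a| / l := by
    rw [hz, norm_neg, norm_mul, Complex.norm_I, Complex.norm_real, Real.norm_eq_abs, abs_div,
      Nat.abs_cast, one_mul]
  have hz1 : ‖z‖ ≤ 1 := by rw [hzn]; exact (div_le_one hlp).2 hla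
  have h1 := Complex.norm_exp_sub_one_sub_id_le hz1
  have e1 : (l : ℂ) * ((Complex.exp z - 1) * F X) + Complex.I * a * F X =
      (l : ℂ) * (Complex.exp z - 1 - z) * F X := by
    rw [hz]
    push_cast
    field_simp
    ring
  rw [e1, norm_mul, norm_mul, Complex.norm_natCast]
  have h2 := hD X
  calc (l : ℝ) * ‖Complex.exp z - 1 - z‖ * ‖F X‖
      ≤ l * (|a| / l) ^ 2 * (D * ((1 + ‖X‖) ^ 2)⁻¹) := by
        rw [hzn] at h1
        gcongr
    _ = a ^ 2 * D * (l : ℝ)⁻¹ * ((1 + ‖X‖) ^ 2)⁻¹ := by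
        rw [div_pow, sq_abs]
        field_simp

end

end Run7.h593.QF
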